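import Mathlib
import Pool.Agent.R575.HY.Main

/-!
# Index functions for the notation construction
-/

namespace Pool.Agent.R575.ND

open Nat.Partrec (Code)
open Pool.Agent.R575.HY

/-- a computable function has an index -/
theorem exists_code_tot {f : ℕ → ℕ} (hf : Computable f) : ∃ c : Code, ∀ n, c.eval n = Part.some (f n) := by
  obtain ⟨c, hc⟩ := Code.exists_code.1 (Partrec.nat_iff.1 hf.partrec)
  exact ⟨c, fun n => congrFun hc n⟩

theorem exists_code_par {f : ℕ → Part ℕ} (hf : Partrec f) : ∃ c : Code, ∀ n, c.eval n = f n := by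
  obtain ⟨c, hc⟩ := Code.exists_code.1 (Partrec.nat_iff.1 hf)
  exact ⟨c, fun n => congrFun hc n⟩

/-- parametrised index of a computable function -/
theorem exists_ix {f : ℕ → ℕ → ℕ} (hf : Computable₂ f) :
    ∃ i : ℕ → ℕ, Computable i ∧ ∀ p n, phi (i p) n = Part.some (f p n) := by
  obtain ⟨c, hc⟩ := exists_code_tot (f := fun N => f (a1 N) (a2 N)) (hf.comp k1 k2)
  refine ⟨ix c, ix_computable c, fun p n => ?_⟩
  rw [phi_ix, hc, a1_pair, a2_pair]

/-- parametrised index of a partial computable function -/
theorem exists_ix_par {f : ℕ → ℕ → Part ℕ} (hf : Partrec₂ f) :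
    ∃ i : ℕ → ℕ, Computable i ∧ ∀ p n, phi (i p) n = f p n := by
  obtain ⟨c, hc⟩ := exists_code_par (f := fun N => f (a1 N) (a2 N)) (hf.comp k1 k2)
  refine ⟨ix c, ix_computable c, fun p n => ?_⟩
  rw [phi_ix, hc, a1_pair, a2_pair]

theorem cmp_exists : ∃ i : ℕ → ℕ, Computable i ∧ ∀ p n,
    phi (i p) n = (phi (a2 p) n).bind (phi (a1 p)) := by
  refine exists_ix_par (f := fun p n => (phi (a2 p) n).bind (phi (a1 p))) ?_
  refine Partrec.bind (phi_partrec.comp (k2.comp Computable.fst) Computable.snd) ?_
  exact phi_partrec.comp ((k1.comp Computable.fst).comp Computable.fst) Computable.snd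

/-- index of the composition of `φ_γ` after `φ_e` -/
noncomputable def cmp (γ e : ℕ) : ℕ := Classical.choose cmp_exists (Nat.pair γ e)

theorem phi_cmp (γ e n : ℕ) : phi (cmp γ e) n = (phi e n).bind (phi γ) := by
  have := (Classical.choose_spec cmp_exists).2 (Nat.pair γ e) n
  rw [a1_pair, a2_pair] at this
  exact this

theorem cmp_computable {α : Type} [Primcodable α] {f g : α → ℕ} (hf : Computable f)
    (hg : Computable g) : Computable (fun x => cmp (f x) (g x)) :=
  (Classical.choose_spec cmp_exists).1.comp (kpair hf hg)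

theorem Jx_exists : ∃ i : ℕ → ℕ, Computable i ∧ ∀ p n, phi (i p) n = Part.some (cmp p n) :=
  exists_ix (cmp_computable Computable.fst Computable.snd)

/-- index of `e ↦ cmp γ e` -/
noncomputable def Jx : ℕ → ℕ := Classical.choose Jx_exists

theorem phi_Jx (γ e : ℕ) : phi (Jx γ) e = Part.some (cmp γ e) :=
  (Classical.choose_spec Jx_exists).2 γ e

theorem Jx_computable : Computable Jx := (Classical.choose_spec Jx_exists).1

theorem cst_exists : ∃ i : ℕ → ℕ, Computable i ∧ ∀ p n, phi (i p) n = Part.some p :=
  exists_ix (f := fun p _ => p) Computable.fst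

/-- index of the constant function -/
noncomputable def cst : ℕ → ℕ := Classical.choose cst_exists

theorem phi_cst (x n : ℕ) : phi (cst x) n = Part.some x :=
  (Classical.choose_spec cst_exists).2 x n

theorem cst_computable : Computable cst := (Classical.choose_spec cst_exists).1

/-- iterated successor of a notation -/
def sc (w : ℕ) : ℕ → ℕ
  | 0 => w
  | n + 1 => 2 ^ (sc w n)

theorem sc_computable : Computable₂ sc := by
  have h : Computable (fun p : ℕ × ℕ => (Nat.rec p.1 (fun _ x => 2 ^ x) p.2 : ℕ)) := by
    refine Computable.nat_rec (h := fun (p : ℕ × ℕ) (q : ℕ × ℕ) => 2 ^ q.2) Computable.snd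
      Computable.fst ?_
    exact powc (Computable.const 2) (Computable.snd.comp Computable.snd)
  refine h.of_eq (fun p => ?_)
  obtain ⟨w, n⟩ := p
  induction n with
  | zero => rfl
  | succ n ih => exact congrArg (fun t => 2 ^ t) ih

theorem eW_exists : ∃ i : ℕ → ℕ, Computable i ∧ ∀ p n, phi (i p) n = Part.some (sc p n) :=
  exists_ix sc_computable

/-- index of `n ↦ sc w n` -/
noncomputable def eW : ℕ → ℕ := Classical.choose eW_exists

theorem phi_eW (w n : ℕ) : phi (eW w) n = Part.some (sc w n) :=
  (Classical.choose_spec eW_exists).2 w n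

theorem eW_computable : Computable eW := (Classical.choose_spec eW_exists).1

/-- the canonical notation `ω` above `w` -/
noncomputable def Wn (w : ℕ) : ℕ := 3 * 5 ^ (eW w)

theorem Wn_computable : Computable Wn :=
  mulc (Computable.const 3) (powc (Computable.const 5) eW_computable)

/-- `k` canonical limits above `w` -/
noncomputable def Up (w : ℕ) : ℕ → ℕ
  | 0 => w
  | k + 1 => Wn (Up w k)

theorem Up_computable : Computable₂ Up := by
  have h : Computable (fun p : ℕ × ℕ => (Nat.rec p.1 (fun _ x => Wn x) p.2 : ℕ)) := by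
    refine Computable.nat_rec (h := fun (p : ℕ × ℕ) (q : ℕ × ℕ) => Wn q.2) Computable.snd
      Computable.fst ?_
    exact Wn_computable.comp (Computable.snd.comp Computable.snd)
  refine h.of_eq (fun p => ?_)
  obtain ⟨w, n⟩ := p
  induction n with
  | zero => rfl
  | succ n ih => exact congrArg Wn ih

/-- `φ_m(m)` is computed within `s` steps, with a value at most `s` -/
def hb (m s : ℕ) : Bool :=
  match Code.evaln s (Denumerable.ofNat Code m) m with
  | none => false
  | some v => decide (v ≤ s)

theorem hb_primrec : Primrec₂ hb := by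
  have h1 : Primrec (fun p : ℕ × ℕ => Code.evaln p.2 (Denumerable.ofNat Code p.1) p.1) :=
    Code.primrec_evaln.comp (Primrec.pair (Primrec.pair Primrec.snd
      ((Primrec.ofNat Code).comp Primrec.fst)) Primrec.fst)
  have h2 : Primrec (fun p : ℕ × ℕ => Option.casesOn
      (motive := fun _ => Bool) (Code.evaln p.2 (Denumerable.ofNat Code p.1) p.1)
      false (fun v => decide (v ≤ p.2))) :=
    Primrec.option_casesOn h1 (Primrec.const false)
      (Primrec.nat_le.comp Primrec.snd (Primrec.snd.comp Primrec.fst)).decide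
  refine h2.of_eq (fun p => ?_)
  obtain ⟨m, s⟩ := p
  simp only [hb]
  cases Code.evaln s (Denumerable.ofNat Code m) m <;> rfl

theorem hb_zero (m : ℕ) : hb m 0 = false := by
  simp [hb, Code.evaln]

theorem hb_mono {m s t : ℕ} (h : hb m s = true) (hst : s ≤ t) : hb m t = true := by
  simp only [hb] at h ⊢
  cases h1 : Code.evaln s (Denumerable.ofNat Code m) m with
  | none => rw [h1] at h; exact absurd h (by simp)
  | some v =>
    rw [h1] at h
    have h2 : v ∈ Code.evaln t (Denumerable.ofNat Code m) m :=
      Code.evaln_mono hst (by rw [h1]; rfl)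
    rw [Option.mem_def] at h2
    rw [h2]
    simp only [decide_eq_true_eq] at h ⊢
    omega

/-- the event at stage `s` -/
def ev (m s : ℕ) : Bool := hb m s && !(hb m (s - 1))

theorem ev_primrec : Primrec₂ ev :=
  Primrec.and.comp hb_primrec (Primrec.not.comp (hb_primrec.comp Primrec.fst
    (Primrec.nat_sub.comp Primrec.snd (Primrec.const 1))))

/-- the climbing sequence -/
noncomputable def cl (m z : ℕ) : ℕ → ℕ
  | 0 => z
  | s + 1 => bif ev m s then Up (cl m z s) (s + 1) else 2 ^ (cl m z s)

theorem cl_computable : Computable (fun p : (ℕ × ℕ) × ℕ => cl p.1.1 p.1.2 p.2) := by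
  have h : Computable (fun p : (ℕ × ℕ) × ℕ => (Nat.rec p.1.2
      (fun s x => bif ev p.1.1 s then Up x (s + 1) else 2 ^ x) p.2 : ℕ)) := by
    refine Computable.nat_rec (h := fun (p : (ℕ × ℕ) × ℕ) (q : ℕ × ℕ) =>
      bif ev p.1.1 q.1 then Up q.2 (q.1 + 1) else 2 ^ q.2) Computable.snd
      (Computable.snd.comp Computable.fst) ?_
    refine Computable.cond (ev_primrec.to_comp.comp
      ((Computable.fst.comp Computable.fst).comp Computable.fst)
      (Computable.fst.comp Computable.snd)) ?_ ?_
    · exact Up_computable.comp (Computable.snd.comp Computable.snd)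
        (Computable.succ.comp (Computable.fst.comp Computable.snd))
    · exact powc (Computable.const 2) (Computable.snd.comp Computable.snd)
  refine h.of_eq (fun p => ?_)
  obtain ⟨⟨m, z⟩, n⟩ := p
  induction n with
  | zero => rfl
  | succ n ih => exact congrArg (fun x => bif ev m n then Up x (n + 1) else 2 ^ x) ih

theorem eL_exists : ∃ i : ℕ → ℕ, Computable i ∧ ∀ p n,
    phi (i p) n = Part.some (cl (a1 p) (a2 p) n) :=
  exists_ix (f := fun p n => cl (a1 p) (a2 p) n)
    (cl_computable.comp (Computable.pair (Computable.pair (k1.comp Computable.fst)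
      (k2.comp Computable.fst)) Computable.snd))

/-- index of the climbing sequence -/
noncomputable def eL (m z : ℕ) : ℕ := Classical.choose eL_exists (Nat.pair m z)

theorem phi_eL (m z n : ℕ) : phi (eL m z) n = Part.some (cl m z n) := by
  have := (Classical.choose_spec eL_exists).2 (Nat.pair m z) n
  rw [a1_pair, a2_pair] at this
  exact this

theorem eL_computable {α : Type} [Primcodable α] {f g : α → ℕ} (hf : Computable f)
    (hg : Computable g) : Computable (fun x => eL (f x) (g x)) :=
  (Classical.choose_spec eL_exists).1.comp (kpair hf hg)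

/-- the limit of the climbing sequence -/
noncomputable def Ln (m z : ℕ) : ℕ := 3 * 5 ^ (eL m z)

/-- the path -/
noncomputable def zz : ℕ → ℕ
  | 0 => 1
  | m + 1 => 2 ^ (Ln m (zz m))

theorem zz_computable : Computable zz := by
  have h : Computable (fun p : ℕ => (Nat.rec 1 (fun m x => 2 ^ (Ln m x)) p : ℕ)) := by
    refine Computable.nat_rec (h := fun (_ : ℕ) (q : ℕ × ℕ) => 2 ^ (Ln q.1 q.2)) Computable.id
      (Computable.const 1) ?_
    exact powc (Computable.const 2) (mulc (Computable.const 3) (powc (Computable.const 5)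
      (eL_computable (Computable.fst.comp Computable.snd) (Computable.snd.comp Computable.snd))))
  refine h.of_eq (fun n => ?_)
  induction n with
  | zero => rfl
  | succ n ih => exact congrArg (fun x => 2 ^ (Ln n x)) ih

theorem ea_exists : ∃ i : ℕ, ∀ n, phi i n = Part.some (zz (n + 1)) := by
  obtain ⟨c, hc⟩ := exists_code_tot (f := fun n => zz (n + 1)) (zz_computable.comp Computable.succ)
  refine ⟨Encodable.encode c, fun n => ?_⟩
  rw [phi, Denumerable.ofNat_encode, hc]

/-- index of the path -/
noncomputable def ea : ℕ := Classical.choose ea_exists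

theorem phi_ea (n : ℕ) : phi ea n = Part.some (zz (n + 1)) := Classical.choose_spec ea_exists n

theorem eb_exists : ∃ i : ℕ, ∀ n, phi i n = Part.some (Up 1 n) := by
  obtain ⟨c, hc⟩ := exists_code_tot (f := fun n => Up 1 n)
    (Up_computable.comp (Computable.const 1) Computable.id)
  refine ⟨Encodable.encode c, fun n => ?_⟩
  rw [phi, Denumerable.ofNat_encode, hc]

/-- index of the canonical path -/
noncomputable def eb : ℕ := Classical.choose eb_exists

theorem phi_eb (n : ℕ) : phi eb n = Part.some (Up 1 n) := Classical.choose_spec eb_exists n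

end Pool.Agent.R575.ND
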