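import Mathlib
import Pool.Agent.R575.ND.Idx

/-!
# The notations and their ordinals
-/

namespace Pool.Agent.R575.ND

open Nat.Partrec (Code)
open Pool.Agent.R575.HY
open Ordinal

/-- the ordinal denoted by a notation -/
noncomputable def ord : {a : ℕ} → Ntn a → Ordinal.{0}
  | _, .zero => 0
  | _, .succ p => ord p + 1
  | _, .lim _ _ _ _ p => ⨆ n, ord (p n)

/-- derivations of iterated successors -/
def scN {w : ℕ} (p : Ntn w) : (n : ℕ) → Ntn (sc w n)
  | 0 => p
  | n + 1 => Ntn.succ (scN p n)

theorem lto_succ {w : ℕ} (p : Ntn w) : LtO w (2 ^ w) :=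
  Relation.TransGen.single (Step.succ w (ntn_pos p))

/-- derivation of the canonical limit -/
noncomputable def WN {w : ℕ} (p : Ntn w) : Ntn (Wn w) :=
  Ntn.lim (eW w) (sc w) (fun n => by rw [phi_eW]; exact Part.mem_some _)
    (fun n => lto_succ (scN p n)) (scN p)

theorem lto_Wn (w : ℕ) : LtO w (Wn w) :=
  Relation.TransGen.single (Step.lim (eW w) 0 w (by rw [phi_eW]; exact Part.mem_some _))

/-- derivation of the iterated canonical limit -/
noncomputable def UpN {w : ℕ} (p : Ntn w) : (k : ℕ) → Ntn (Up w k)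
  | 0 => p
  | k + 1 => WN (UpN p k)

theorem lto_Up_succ (w k : ℕ) : LtO (Up w k) (Up w (k + 1)) := lto_Wn _

theorem lto_Up (w k : ℕ) : LtO w (Up w (k + 1)) := by
  induction k with
  | zero => exact lto_Wn w
  | succ k ih => exact Relation.TransGen.trans ih (lto_Up_succ w (k + 1))

/-- the step of the climbing sequence -/
noncomputable def clStep {w : ℕ} (p : Ntn w) (s : ℕ) : (b : Bool) → Ntn (bif b then Up w (s + 1) else 2 ^ w)
  | true => UpN p (s + 1)
  | false => Ntn.succ p

theorem lto_clStep {w : ℕ} (p : Ntn w) (s : ℕ) (b : Bool) :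
    LtO w (bif b then Up w (s + 1) else 2 ^ w) := by
  cases b
  · exact lto_succ p
  · exact lto_Up w s

/-- derivations of the climbing sequence -/
noncomputable def clN (m : ℕ) {z : ℕ} (p : Ntn z) : (s : ℕ) → Ntn (cl m z s)
  | 0 => p
  | s + 1 => clStep (clN m p s) s (ev m s)

/-- derivation of the limit of the climbing sequence -/
noncomputable def LN (m : ℕ) {z : ℕ} (p : Ntn z) : Ntn (Ln m z) :=
  Ntn.lim (eL m z) (cl m z) (fun n => by rw [phi_eL]; exact Part.mem_some _)
    (fun n => lto_clStep (clN m p n) n (ev m n)) (clN m p)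

theorem lto_Ln (m z : ℕ) : LtO z (Ln m z) :=
  Relation.TransGen.single (Step.lim (eL m z) 0 z (by rw [phi_eL]; exact Part.mem_some _))

/-- derivations of the path -/
noncomputable def zN : (m : ℕ) → Ntn (zz m)
  | 0 => Ntn.zero
  | m + 1 => Ntn.succ (LN m (zN m))

theorem lto_zz (m : ℕ) : LtO (zz m) (zz (m + 1)) :=
  Relation.TransGen.trans (lto_Ln m (zz m)) (lto_succ (LN m (zN m)))

/-- the first notation of `ω ^ 2` -/
noncomputable def aN : Ntn (3 * 5 ^ ea) :=
  Ntn.lim ea (fun m => zz (m + 1)) (fun n => by rw [phi_ea]; exact Part.mem_some _)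
    (fun n => lto_zz (n + 1)) (fun m => zN (m + 1))

/-- the second notation of `ω ^ 2` -/
noncomputable def bN : Ntn (3 * 5 ^ eb) :=
  Ntn.lim eb (fun k => Up 1 k) (fun n => by rw [phi_eb]; exact Part.mem_some _)
    (fun n => lto_Up_succ 1 n) (fun k => UpN Ntn.zero k)

theorem ord_scN {w : ℕ} (p : Ntn w) (n : ℕ) : ord (scN p n) = ord p + n := by
  induction n with
  | zero =>
    change ord p = _
    simp
  | succ n ih =>
    change ord (scN p n) + 1 = _
    rw [ih, Nat.cast_succ, add_assoc]

theorem ord_WN {w : ℕ} (p : Ntn w) : ord (WN p) = ord p + ω := by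
  change (⨆ n, ord (scN p n)) = _
  rw [← iSup_add_natCast]
  exact congrArg iSup (funext (fun n => ord_scN p n))

theorem ord_UpN {w : ℕ} (p : Ntn w) (k : ℕ) : ord (UpN p k) = ord p + ω * k := by
  induction k with
  | zero =>
    change ord p = _
    simp
  | succ k ih =>
    change ord (WN (UpN p k)) = _
    rw [ord_WN, ih, Nat.cast_succ, mul_add, mul_one, add_assoc]

theorem ord_bN : ord bN = ω ^ 2 := by
  change (⨆ k, ord (UpN Ntn.zero k)) = _
  have h : ∀ k : ℕ, ord (UpN Ntn.zero k) = ω * k := by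
    intro k
    rw [ord_UpN]
    simp [ord]
  rw [show (fun k => ord (UpN Ntn.zero k)) = fun k : ℕ => ω * (k : Ordinal) from funext h,
    iSup_mul_natCast, pow_two]

theorem ord_cl_lt (m : ℕ) {z : ℕ} (p : Ntn z) (s : ℕ) :
    ord (clN m p s) ≤ ord (clN m p (s + 1)) := by
  change _ ≤ ord (clStep (clN m p s) s (ev m s))
  cases ev m s
  · exact le_self_add
  · change _ ≤ ord (UpN (clN m p s) (s + 1))
    rw [ord_UpN]
    exact le_self_add

theorem ord_cl_mono (m : ℕ) {z : ℕ} (p : Ntn z) : Monotone (fun s => ord (clN m p s)) :=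
  monotone_nat_of_le_succ (ord_cl_lt m p)

theorem ord_cl_quiet (m : ℕ) {z : ℕ} (p : Ntn z) (s : ℕ) (h : ∀ t, s ≤ t → ev m t = false)
    (t : ℕ) : ord (clN m p (s + t)) = ord (clN m p s) + t := by
  induction t with
  | zero => simp
  | succ t ih =>
    change ord (clStep (clN m p (s + t)) (s + t) (ev m (s + t))) = _
    rw [h (s + t) (by omega)]
    change ord (clN m p (s + t)) + 1 = _
    rw [ih, Nat.cast_succ, add_assoc]

theorem quiet (m : ℕ) : ∃ s, ∀ t, s ≤ t → ev m t = false := by
  by_cases h : ∃ s, ev m s = true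
  · obtain ⟨s, hs⟩ := h
    refine ⟨s + 1, fun t ht => ?_⟩
    have h1 : hb m s = true := by
      simp only [ev, Bool.and_eq_true] at hs
      exact hs.1
    have h2 : hb m (t - 1) = true := hb_mono h1 (by omega)
    simp [ev, h2]
  · refine ⟨0, fun t _ => ?_⟩
    cases h1 : ev m t
    · rfl
    · exact absurd ⟨t, h1⟩ h

/-- being below `ω * k` for some natural number `k` -/
def Small (o : Ordinal.{0}) : Prop := ∃ k : ℕ, o ≤ ω * k

theorem small_add {o : Ordinal.{0}} (h : Small o) (j : ℕ) : Small (o + ω * j) := by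
  obtain ⟨k, hk⟩ := h
  refine ⟨k + j, ?_⟩
  rw [Nat.cast_add, mul_add]
  gcongr

theorem small_succ {o : Ordinal.{0}} (h : Small o) : Small (o + 1) := by
  obtain ⟨k, hk⟩ := h
  refine ⟨k + 1, ?_⟩
  rw [Nat.cast_add, mul_add, Nat.cast_one, mul_one]
  exact add_le_add hk one_lt_omega0.le

theorem small_cl (m : ℕ) {z : ℕ} (p : Ntn z) (h : Small (ord p)) (s : ℕ) :
    Small (ord (clN m p s)) := by
  induction s with
  | zero => exact h
  | succ s ih =>
    change Small (ord (clStep (clN m p s) s (ev m s)))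
    cases ev m s
    · exact small_succ ih
    · change Small (ord (UpN (clN m p s) (s + 1)))
      rw [ord_UpN]
      exact small_add ih _

theorem small_LN (m : ℕ) {z : ℕ} (p : Ntn z) (h : Small (ord p)) : Small (ord (LN m p)) := by
  obtain ⟨s, hs⟩ := quiet m
  obtain ⟨k, hk⟩ := small_cl m p h s
  refine ⟨k + 1, ?_⟩
  change (⨆ n, ord (clN m p n)) ≤ _
  apply Ordinal.iSup_le
  intro n
  have h1 : ord (clN m p n) ≤ ord (clN m p (s + n)) := ord_cl_mono m p (by omega)
  refine h1.trans ?_
  rw [ord_cl_quiet m p s hs n, Nat.cast_add, mul_add, Nat.cast_one, mul_one]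
  exact add_le_add hk (natCast_lt_omega0 n).le

theorem small_zN (m : ℕ) : Small (ord (zN m)) := by
  induction m with
  | zero => exact ⟨0, by simp [zN, ord]⟩
  | succ m ih => exact small_succ (small_LN m _ ih)

theorem le_ord_cl (m : ℕ) {z : ℕ} (p : Ntn z) (s : ℕ) : ord p + s ≤ ord (clN m p s) := by
  induction s with
  | zero =>
    change _ ≤ ord p
    simp
  | succ s ih =>
    rw [Nat.cast_succ, ← add_assoc]
    change _ ≤ ord (clStep (clN m p s) s (ev m s))
    cases ev m s
    · exact add_le_add ih le_rfl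
    · change _ ≤ ord (UpN (clN m p s) (s + 1))
      rw [ord_UpN]
      refine add_le_add ih ?_
      rw [Nat.cast_succ, mul_add, mul_one]
      exact one_lt_omega0.le.trans le_add_self

theorem le_ord_LN (m : ℕ) {z : ℕ} (p : Ntn z) : ord p + ω ≤ ord (LN m p) := by
  change _ ≤ (⨆ n, ord (clN m p n))
  rw [← iSup_add_natCast]
  apply Ordinal.iSup_le
  intro n
  exact (le_ord_cl m p n).trans (Ordinal.le_iSup (fun n => ord (clN m p n)) n)

theorem le_ord_zN (m : ℕ) : ω * m ≤ ord (zN m) := by
  induction m with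
  | zero => simp
  | succ m ih =>
    rw [Nat.cast_succ, mul_add, mul_one]
    change _ ≤ ord (LN m (zN m)) + 1
    refine le_trans ?_ (le_trans (le_ord_LN m (zN m)) le_self_add)
    exact add_le_add ih le_rfl

theorem ord_aN : ord aN = ω ^ 2 := by
  change (⨆ m, ord (zN (m + 1))) = _
  rw [pow_two]
  apply le_antisymm
  · apply Ordinal.iSup_le
    intro m
    obtain ⟨k, hk⟩ := small_zN (m + 1)
    refine hk.trans ?_
    exact mul_le_mul_right (natCast_lt_omega0 k).le ω
  · rw [← iSup_mul_natCast]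
    apply Ordinal.iSup_le
    intro m
    refine le_trans (le_ord_zN m) (le_trans ?_ (Ordinal.le_iSup (fun m => ord (zN (m + 1))) m))
    change _ ≤ ord (LN m (zN m)) + 1
    refine le_trans ?_ (le_trans (le_ord_LN m (zN m)) le_self_add)
    exact le_self_add

end Pool.Agent.R575.ND
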