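import Mathlib
import Pool.Agent.R575.ND.Not

/-!
# Reductions between iterates
-/

namespace Pool.Agent.R575.ND

open Nat.Partrec (Code)
open Pool.Agent.R575.HY

theorem CRed.rfl' {E : ℕ → ℕ → Prop} : CRed E E := ⟨id, Computable.id, fun _ _ => Iff.rfl⟩

theorem CRed.tr {E F G : ℕ → ℕ → Prop} (h : CRed E F) (h' : CRed F G) : CRed E G := by
  obtain ⟨f, hf, hf'⟩ := h
  obtain ⟨g, hg, hg'⟩ := h'
  exact ⟨fun n => g (f n), hg.comp hf, fun n m => (hf' n m).trans (hg' _ _)⟩

theorem emb {E : ℕ → ℕ → Prop} (hE : Equivalence E) : CRed E (FSJump E) := by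
  refine ⟨cst, cst_computable, fun n m => ?_⟩
  rw [fsjump_iff hE]
  constructor
  · intro h
    constructor
    · intro i x hx
      rw [phi_cst, Part.mem_some_iff] at hx
      subst hx
      exact ⟨0, m, by rw [phi_cst]; exact Part.mem_some _, h⟩
    · intro i x hx
      rw [phi_cst, Part.mem_some_iff] at hx
      subst hx
      exact ⟨0, n, by rw [phi_cst]; exact Part.mem_some _, h⟩
  · intro h
    obtain ⟨i, y, hy, hxy⟩ := h.1 0 n (by rw [phi_cst]; exact Part.mem_some _)
    rw [phi_cst, Part.mem_some_iff] at hy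
    subst hy
    exact hxy

/-- an indexed reduction -/
def Rd (γ : ℕ) (g : ℕ → ℕ) (E F : ℕ → ℕ → Prop) : Prop :=
  (∀ x, phi γ x = Part.some (g x)) ∧ ∀ x y, E x y ↔ F (g x) (g y)

theorem rd_of_cred {E F : ℕ → ℕ → Prop} (h : CRed E F) : ∃ γ g, Rd γ g E F := by
  obtain ⟨f, hf, hf'⟩ := h
  obtain ⟨c, hc⟩ := exists_code_tot hf
  refine ⟨Encodable.encode c, f, fun x => ?_, hf'⟩
  rw [phi, Denumerable.ofNat_encode, hc]

theorem cred_of_rd {E F : ℕ → ℕ → Prop} {γ : ℕ} {g : ℕ → ℕ} (h : Rd γ g E F) : CRed E F := by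
  refine ⟨g, ?_, h.2⟩
  exact (phi_partrec.comp (Computable.const γ) Computable.id).of_eq_tot
    (fun n => by
      change g n ∈ phi γ n
      rw [h.1 n]
      exact Part.mem_some _)

theorem rd_jump {E F : ℕ → ℕ → Prop} (hE : Equivalence E) (hF : Equivalence F) {γ : ℕ}
    {g : ℕ → ℕ} (h : Rd γ g E F) : Rd (Jx γ) (cmp γ) (FSJump E) (FSJump F) := by
  refine ⟨fun x => phi_Jx γ x, fun e e' => ?_⟩
  have key : ∀ e n y, y ∈ phi (cmp γ e) n ↔ ∃ x ∈ phi e n, y = g x := by
    intro e n y
    rw [phi_cmp]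
    refine Part.mem_bind_iff.trans ?_
    constructor
    · rintro ⟨x, hx, hy⟩
      rw [h.1, Part.mem_some_iff] at hy
      exact ⟨x, hx, hy⟩
    · rintro ⟨x, hx, rfl⟩
      exact ⟨x, hx, by rw [h.1]; exact Part.mem_some _⟩
  rw [fsjump_iff hE, fsjump_iff hF]
  constructor
  · rintro ⟨h1, h2⟩
    constructor
    · intro n y hy
      obtain ⟨x, hx, rfl⟩ := (key _ _ _).1 hy
      obtain ⟨m, z, hz, hxz⟩ := h1 n x hx
      exact ⟨m, g z, (key _ _ _).2 ⟨z, hz, rfl⟩, (h.2 _ _).1 hxz⟩
    · intro n y hy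
      obtain ⟨x, hx, rfl⟩ := (key _ _ _).1 hy
      obtain ⟨m, z, hz, hxz⟩ := h2 n x hx
      exact ⟨m, g z, (key _ _ _).2 ⟨z, hz, rfl⟩, (h.2 _ _).1 hxz⟩
  · rintro ⟨h1, h2⟩
    constructor
    · intro n x hx
      obtain ⟨m, y, hy, hxy⟩ := h1 n (g x) ((key _ _ _).2 ⟨x, hx, rfl⟩)
      obtain ⟨z, hz, rfl⟩ := (key _ _ _).1 hy
      exact ⟨m, z, hz, (h.2 _ _).2 hxy⟩
    · intro n x hx
      obtain ⟨m, y, hy, hxy⟩ := h2 n (g x) ((key _ _ _).2 ⟨x, hx, rfl⟩)
      obtain ⟨z, hz, rfl⟩ := (key _ _ _).1 hy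
      exact ⟨m, z, hz, (h.2 _ _).2 hxy⟩

theorem cred_jump {E F : ℕ → ℕ → Prop} (hE : Equivalence E) (hF : Equivalence F)
    (h : CRed E F) : CRed (FSJump E) (FSJump F) := by
  obtain ⟨γ, g, hg⟩ := rd_of_cred h
  exact cred_of_rd (rd_jump hE hF hg)

/-- iterated jump -/
def it (E : ℕ → ℕ → Prop) : ℕ → ℕ → ℕ → Prop
  | 0 => E
  | n + 1 => FSJump (it E n)

theorem it_equiv {E : ℕ → ℕ → Prop} (hE : Equivalence E) (n : ℕ) : Equivalence (it E n) := by
  cases n with
  | zero => exact hE
  | succ n => exact fsjump_equiv _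

/-- the sum of a sequence of relations -/
def SumR (R : ℕ → ℕ → ℕ → Prop) (z w : ℕ) : Prop :=
  z.unpair.1 = w.unpair.1 ∧ R z.unpair.1 z.unpair.2 w.unpair.2

theorem SumR_pair (R : ℕ → ℕ → ℕ → Prop) (m x n y : ℕ) :
    SumR R (Nat.pair m x) (Nat.pair n y) ↔ (m = n ∧ R m x y) := by
  simp [SumR]

theorem sum_mono {E F : ℕ → ℕ → Prop} (hE : Equivalence E) (hF : Equivalence F)
    (h : CRed E F) : CRed (SumR (it E)) (SumR (it F)) := by
  obtain ⟨γ, g, hg⟩ := rd_of_cred h
  let γs : ℕ → ℕ := fun n => Nat.rec γ (fun _ x => Jx x) n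
  have hγ : Computable γs :=
    Computable.nat_rec (h := fun (_ : ℕ) (q : ℕ × ℕ) => Jx q.2) Computable.id (Computable.const γ)
      (Jx_computable.comp (Computable.snd.comp Computable.snd))
  let gs : ℕ → ℕ → ℕ := fun n => Nat.rec g (fun n _ => cmp (γs n)) n
  have hR : ∀ n, Rd (γs n) (gs n) (it E n) (it F n) := by
    intro n
    induction n with
    | zero => exact hg
    | succ n ih => exact rd_jump (it_equiv hE n) (it_equiv hF n) ih
  refine ⟨fun z => Nat.pair z.unpair.1 (gs z.unpair.1 z.unpair.2), ?_, ?_⟩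
  · refine kpair k1 ?_
    exact (phi_partrec.comp (hγ.comp k1) k2).of_eq_tot
      (fun z => by rw [(hR (a1 z)).1]; exact Part.mem_some _)
  · intro z w
    rw [SumR_pair, SumR]
    constructor
    · rintro ⟨h1, h2⟩
      refine ⟨h1, ?_⟩
      rw [← h1]
      exact ((hR _).2 _ _).1 h2
    · rintro ⟨h1, h2⟩
      refine ⟨h1, ?_⟩
      rw [← h1] at h2
      exact ((hR _).2 _ _).2 h2

theorem FS_scN {w : ℕ} (p : Ntn w) (n : ℕ) : ID (scN p n) = it (ID p) n := by
  induction n with
  | zero => rfl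
  | succ n ih =>
    change FSJump (ID (scN p n)) = FSJump (it (ID p) n)
    rw [ih]

theorem FS_WN {w : ℕ} (p : Ntn w) : ID (WN p) = SumR (it (ID p)) := by
  funext z v
  change (z.unpair.1 = v.unpair.1 ∧ ID (scN p z.unpair.1) z.unpair.2 v.unpair.2) = _
  rw [FS_scN]
  rfl

theorem lim_le {e : ℕ} {f : ℕ → ℕ} {hf : ∀ n, f n ∈ phi e n}
    {mono : ∀ n, LtO (f n) (f (n + 1))} {p : ∀ n, Ntn (f n)} (n : ℕ) :
    CRed (ID (p n)) (ID (Ntn.lim e f hf mono p)) := by
  refine ⟨fun x => Nat.pair n x, kpair (Computable.const n) Computable.id, fun x y => ?_⟩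
  constructor
  · intro h
    exact (FS_lim_pair _ _ _ _ _ _ _ _ _).2 ⟨rfl, h⟩
  · intro h
    exact ((FS_lim_pair _ _ _ _ _ _ _ _ _).1 h).2

theorem id_le {w : ℕ} (p : Ntn w) : CRed (fun n m : ℕ => n = m) (ID p) := by
  induction p with
  | zero => exact CRed.rfl'
  | succ p ih => exact CRed.tr ih (emb (FS_equiv eq_equiv p))
  | lim e f hf mono p ih => exact CRed.tr (ih 0) (lim_le 0)

theorem le_WN {w : ℕ} (p : Ntn w) : CRed (ID p) (ID (WN p)) := lim_le (p := scN p) 0

theorem WN_mono {w w' : ℕ} (p : Ntn w) (p' : Ntn w') (h : CRed (ID p) (ID p')) :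
    CRed (ID (WN p)) (ID (WN p')) := by
  rw [FS_WN, FS_WN]
  exact sum_mono (FS_equiv eq_equiv p) (FS_equiv eq_equiv p') h

theorem UpN_mono {w w' : ℕ} (p : Ntn w) (p' : Ntn w') (h : CRed (ID p) (ID p')) (k : ℕ) :
    CRed (ID (UpN p k)) (ID (UpN p' k)) := by
  induction k with
  | zero => exact h
  | succ k ih => exact WN_mono _ _ ih

theorem UpN_le {w : ℕ} (p : Ntn w) {k l : ℕ} (h : k ≤ l) : CRed (ID (UpN p k)) (ID (UpN p l)) := by
  induction h with
  | refl => exact CRed.rfl'
  | step _ ih => exact CRed.tr ih (le_WN _)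

theorem clStep_true {w : ℕ} (p : Ntn w) (s : ℕ) (b : Bool) (hb : b = true) :
    CRed (ID (UpN p (s + 1))) (ID (clStep p s b)) := by
  subst hb
  exact CRed.rfl'

/-- if the event happens at stage `s` then the limit is above `s + 1` canonical limits -/
theorem event_le (m : ℕ) {z : ℕ} (p : Ntn z) (s : ℕ) (h : ev m s = true) {k : ℕ}
    (hk : k ≤ s + 1) : CRed (ID (UpN Ntn.zero k)) (ID (LN m p)) := by
  have h1 : CRed (ID (UpN Ntn.zero k)) (ID (UpN (clN m p s) k)) :=
    UpN_mono Ntn.zero (clN m p s) (id_le (clN m p s)) k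
  have h2 : CRed (ID (UpN (clN m p s) k)) (ID (UpN (clN m p s) (s + 1))) := UpN_le _ hk
  have h3 : CRed (ID (UpN (clN m p s) (s + 1))) (ID (clN m p (s + 1))) := clStep_true _ _ _ h
  have h4 : CRed (ID (clN m p (s + 1))) (ID (LN m p)) := lim_le (p := clN m p) (s + 1)
  exact CRed.tr h1 (CRed.tr h2 (CRed.tr h3 h4))

theorem emp_exists : ∃ i : ℕ, ∀ n, phi i n = Part.none := by
  obtain ⟨c, hc⟩ := exists_code_par (f := fun _ => Part.none) Partrec.none
  refine ⟨Encodable.encode c, fun n => ?_⟩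
  rw [phi, Denumerable.ofNat_encode, hc]

/-- index of the empty function -/
noncomputable def emp : ℕ := Classical.choose emp_exists

theorem phi_emp (n : ℕ) : phi emp n = Part.none := Classical.choose_spec emp_exists n

theorem jump_congr {E : ℕ → ℕ → Prop} {e e' : ℕ} (h : ∀ n, phi e n = phi e' n) :
    FSJump E e e' := by
  unfold FSJump
  simp only [h]

/-- all elements of a column which is a jump go to the same column -/
theorem one_column {E : ℕ → ℕ → Prop} (g : ℕ → ℕ) (hg : Computable g)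
    (h : ∀ e e', FSJump E e e' → g e = g e') (e : ℕ) : g e = g emp := by
  by_contra hne
  have hp : Partrec₂ (fun (c : Code) (n : ℕ) =>
      bif g (Encodable.encode c) == g emp then phi e n else Part.none) := by
    refine Partrec.cond (eqc (hg.comp (Computable.encode.comp Computable.fst))
      (Computable.const _)) ?_ Partrec.none
    exact phi_partrec.comp (Computable.const e) Computable.snd
  obtain ⟨c, hc⟩ := Code.fixed_point₂ hp
  have hphi : ∀ n, phi (Encodable.encode c) n =
      bif g (Encodable.encode c) == g emp then phi e n else Part.none := by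
    intro n
    rw [phi, Denumerable.ofNat_encode, hc]
  by_cases h1 : g (Encodable.encode c) = g emp
  · have h2 : ∀ n, phi (Encodable.encode c) n = phi e n := by
      intro n
      rw [hphi, h1]
      simp
    exact hne ((h _ _ (jump_congr h2)).symm.trans h1)
  · have h2 : ∀ n, phi (Encodable.encode c) n = phi emp n := by
      intro n
      rw [hphi, phi_emp, show (g (Encodable.encode c) == g emp) = false by simpa using h1]
      rfl
    exact h1 (h _ _ (jump_congr h2))

/-- the main step: a reduction between the two iterates gives a reduction of a jump -/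
theorem key_step (h : CRed (ID aN) (ID bN)) :
    ∃ (m k : ℕ), CRed (FSJump (ID (LN m (zN m)))) (ID (UpN Ntn.zero k)) ∧
      CRed (ID (UpN Ntn.zero k)) (ID (LN m (zN m))) := by
  obtain ⟨f, hf, hf'⟩ := h
  have hcol : Computable (fun m => a1 (f (Nat.pair m emp))) :=
    k1.comp (hf.comp (kpair Computable.id (Computable.const emp)))
  obtain ⟨c, hc⟩ := exists_code_tot hcol
  let m := Encodable.encode c
  let k := a1 (f (Nat.pair m emp))
  have hphi : k ∈ phi m m := by
    change k ∈ phi (Encodable.encode c) m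
    rw [phi, Denumerable.ofNat_encode, hc]
    exact Part.mem_some _
  have ha : ∀ e e', ID aN (Nat.pair m e) (Nat.pair m e') ↔
      FSJump (ID (LN m (zN m))) e e' := by
    intro e e'
    constructor
    · intro h
      exact ((FS_lim_pair _ _ _ _ _ _ _ _ _).1 h).2
    · intro h
      exact (FS_lim_pair _ _ _ _ _ _ _ _ _).2 ⟨rfl, h⟩
  have hcolumn : ∀ e, a1 (f (Nat.pair m e)) = k := by
    intro e
    refine one_column (E := ID (LN m (zN m))) (fun e => a1 (f (Nat.pair m e)))
      (k1.comp (hf.comp (kpair (Computable.const m) Computable.id))) ?_ e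
    intro e e' hee
    exact ((hf' _ _).1 ((ha e e').2 hee)).1
  refine ⟨m, k, ?_, ?_⟩
  · refine ⟨fun e => a2 (f (Nat.pair m e)),
      k2.comp (hf.comp (kpair (Computable.const m) Computable.id)), fun e e' => ?_⟩
    rw [← ha, hf']
    have h1 : f (Nat.pair m e) = Nat.pair k (a2 (f (Nat.pair m e))) := by
      rw [← hcolumn e]
      exact (Nat.pair_unpair _).symm
    have h2 : f (Nat.pair m e') = Nat.pair k (a2 (f (Nat.pair m e'))) := by
      rw [← hcolumn e']
      exact (Nat.pair_unpair _).symm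
    constructor
    · intro h
      rw [h1, h2] at h
      exact ((FS_lim_pair _ _ _ _ _ _ _ _ _).1 h).2
    · intro h
      rw [h1, h2]
      exact (FS_lim_pair _ _ _ _ _ _ _ _ _).2 ⟨rfl, h⟩
  · -- find the event
    have hex : ∃ s, hb m s = true := by
      obtain ⟨s, hs⟩ := Code.evaln_complete.1 (show k ∈ (Denumerable.ofNat Code m).eval m from hphi)
      refine ⟨max s k, ?_⟩
      have h2 : k ∈ Code.evaln (max s k) (Denumerable.ofNat Code m) m :=
        Code.evaln_mono (le_max_left _ _) hs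
      rw [Option.mem_def] at h2
      simp only [hb, h2, decide_eq_true_eq]
      exact le_max_right _ _
    classical
    let s := Nat.find hex
    have hs : hb m s = true := Nat.find_spec hex
    have hs0 : s ≠ 0 := by
      intro h0
      rw [h0, hb_zero] at hs
      exact absurd hs (by simp)
    have hs1 : hb m (s - 1) = false := by
      have := Nat.find_min hex (show s - 1 < s by omega)
      simpa using this
    have hev : ev m s = true := by
      simp [ev, hs, hs1]
    have hks : k ≤ s := by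
      simp only [hb] at hs
      cases hv : Code.evaln s (Denumerable.ofNat Code m) m with
      | none => rw [hv] at hs; exact absurd hs (by simp)
      | some v =>
        rw [hv] at hs
        simp only [decide_eq_true_eq] at hs
        have hvk : v = k := Part.mem_unique (Code.evaln_sound hv) hphi
        omega
    exact event_le m (zN m) s hev (by omega)

end Pool.Agent.R575.ND
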