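import Mathlib
import Pool.Agent.R575.ND.Red
import Pool.Agent.R575.HY.Oracle

/-!
# The jump is proper at the canonical notations
-/

namespace Pool.Agent.R575.ND

open Nat.Partrec (Code)
open Pool.Agent.R575.HY

/-- the set of pairs of related elements -/
def EqS (R : ℕ → ℕ → Prop) : Set ℕ := {z | R z.unpair.1 z.unpair.2}

/-- the set enumerated from the oracle `X` by the index `i` -/
def CE (i : ℕ) (X : Set ℕ) : Set ℕ := {x | ∃ u, Agree X u ∧ (phi i (Nat.pair x u)).Dom}

/-- existential questions to the oracle -/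
theorem ce_search {g : ℕ → ℕ → Option ℕ} (hg : Computable₂ g) (pol : Bool) :
    ∃ i, ∀ X : Set ℕ, CE i X = {x | ∃ t z, g x t = some z ∧ (z ∈ X ↔ pol = true)} := by
  let test : ℕ → ℕ → Bool := fun N t =>
    Option.casesOn (motive := fun _ => Bool) (g (a1 N) t) false
      (fun z => decide (z < a1 (a2 N)) && ((a2 (a2 N)).testBit z == pol))
  have htest : Computable₂ test := by
    refine Computable.option_casesOn (o := fun p : ℕ × ℕ => g (a1 p.1) p.2)
      (f := fun _ => false)
      (g := fun (p : ℕ × ℕ) (z : ℕ) => decide (z < a1 (a2 p.1)) && ((a2 (a2 p.1)).testBit z == pol))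
      (hg.comp (k1.comp Computable.fst) Computable.snd) (Computable.const false) ?_
    refine (Primrec.and.comp (Primrec.nat_lt.comp Primrec.snd
      (p1.comp (p2.comp (Primrec.fst.comp Primrec.fst)))).decide
      (Primrec.beq.comp (primrec_testBit.comp
        (p2.comp (p2.comp (Primrec.fst.comp Primrec.fst))) Primrec.snd) (Primrec.const pol))).to_comp
  have hr : Partrec (fun N => Nat.rfind (fun t => Part.some (test N t))) :=
    Partrec.rfind (p := fun N t => Part.some (test N t)) htest.partrec₂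
  obtain ⟨c, hc⟩ := exists_code_par hr
  refine ⟨Encodable.encode c, fun X => ?_⟩
  have hphi : ∀ N, phi (Encodable.encode c) N = Nat.rfind (fun t => Part.some (test N t)) := by
    intro N
    rw [phi, Denumerable.ofNat_encode, hc]
  have hdom : ∀ N, (phi (Encodable.encode c) N).Dom ↔ ∃ t, test N t = true := by
    intro N
    rw [hphi]
    constructor
    · intro h
      obtain ⟨y, hy⟩ := Part.dom_iff_mem.1 h
      exact ⟨y, by simpa using (Nat.rfind_spec hy)⟩
    · rintro ⟨t, ht⟩
      obtain ⟨n, hn, _⟩ := Nat.rfind_min' (p := test N) ht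
      exact Part.dom_iff_mem.2 ⟨n, hn⟩
  have htest_iff : ∀ x u t, test (Nat.pair x u) t = true ↔
      ∃ z, g x t = some z ∧ z < a1 u ∧ ((a2 u).testBit z = pol) := by
    intro x u t
    simp only [test, a1_pair, a2_pair]
    cases g x t with
    | none => simp
    | some z => simp
  ext x
  constructor
  · rintro ⟨u, hu, hd⟩
    obtain ⟨t, ht⟩ := (hdom _).1 hd
    obtain ⟨z, hz, hzu, hb⟩ := (htest_iff _ _ _).1 ht
    refine ⟨t, z, hz, ?_⟩
    have := hu z hzu
    change ((a2 u).testBit z = true ↔ _) at this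
    rw [← this, hb]
  · rintro ⟨t, z, hz, hpol⟩
    obtain ⟨u, hu, hu'⟩ := exists_agree X (z + 1)
    refine ⟨u, hu, (hdom _).2 ⟨t, (htest_iff _ _ _).2 ⟨z, hz, by omega, ?_⟩⟩⟩
    have := hu z (by change z < a1 u; omega)
    change ((a2 u).testBit z = true ↔ _) at this
    rw [hpol] at this
    cases pol <;> cases hb : (a2 u).testBit z <;> simp [hb] at this ⊢

/-- the values after an existential step -/
noncomputable def vO (κ i x r k : ℕ) : ℕ :=
  bif k == 0 then i2 κ 0 i x (Nat.pair x r) else iTF κ 0 (Nat.pair x r) (k - 1)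

theorem kO_exists : ∃ j : ℕ → ℕ, Computable j ∧ ∀ p N, phi (j p) N =
    Part.some (vO (a1 p) (a2 p) (a1 (a1 (a2 N - 1))) (a2 (a1 (a2 N - 1))) (a2 (a2 N - 1))) := by
  refine exists_ix (f := fun p N =>
    vO (a1 p) (a2 p) (a1 (a1 (a2 N - 1))) (a2 (a1 (a2 N - 1))) (a2 (a2 N - 1))) ?_
  have hq : Computable (fun x : ℕ × ℕ => a2 x.2 - 1) := predc (k2.comp Computable.snd)
  have hx : Computable (fun x : ℕ × ℕ => a1 (a1 (a2 x.2 - 1))) := k1.comp (k1.comp hq)
  have hr : Computable (fun x : ℕ × ℕ => a2 (a1 (a2 x.2 - 1))) := k2.comp (k1.comp hq)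
  have hk : Computable (fun x : ℕ × ℕ => a2 (a2 x.2 - 1)) := k2.comp hq
  exact Computable.cond (eqc hk (Computable.const 0))
    (i2_computable (k1.comp Computable.fst) (Computable.const 0) (k2.comp Computable.fst) hx
      (kpair hx hr))
    (iTF_computable (k1.comp Computable.fst) (Computable.const 0) (kpair hx hr) (predc hk))

/-- index of the values after an existential step -/
noncomputable def kO (κ i : ℕ) : ℕ := Classical.choose kO_exists (Nat.pair κ i)

theorem kO_computable {α : Type} [Primcodable α] {f g : α → ℕ} (hf : Computable f)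
    (hg : Computable g) : Computable (fun x => kO (f x) (g x)) :=
  (Classical.choose_spec kO_exists).1.comp (kpair hf hg)

theorem phi_kO (κ i x r k : ℕ) : V (kO κ i) 0 (qq x r k) = Part.some (vO κ i x r k) := by
  have := (Classical.choose_spec kO_exists).2 (Nat.pair κ i) (Nat.pair 0 (qq x r k))
  rw [a1_pair, a2_pair, a2_pair] at this
  rw [V, kO, this]
  simp [qq, a1_pair, a2_pair]

theorem dat_O {R : ℕ → ℕ → Prop} {X : Set ℕ} {κ : ℕ} {v : ℕ → ℕ → ℕ → ℕ} (D : Dat R X κ 0 v)
    (i : ℕ) : Dat (FSJump (FSJump R)) (CE i X) (kO κ i) 0 (vO κ i) := by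
  refine ⟨fsjump_equiv _, ?_, ?_, ?_, ?_⟩
  · intro n r k
    rw [phi_kO]
    exact Part.mem_some _
  · intro n r hn
    exact O_true D hn
  · intro n r hn
    exact O_false D hn
  · intro n r k n' r' k' hk hk' h
    have hk0 : (k == 0) = false := by rcases hk with rfl | rfl <;> rfl
    have hk0' : (k' == 0) = false := by rcases hk' with rfl | rfl <;> rfl
    simp only [vO, hk0, hk0', cond_false] at h
    obtain ⟨h1, h2⟩ := TF_inj D h
    obtain ⟨h3, h4⟩ := Nat.pair_eq_pair.1 h1
    exact ⟨h3, h4, by omega⟩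

/-- swap the two truth values -/
def sw (k : ℕ) : ℕ := bif k == 1 then 2 else (bif k == 2 then 1 else k)

theorem kC_exists : ∃ j : ℕ → ℕ, Computable j ∧ ∀ p N, phi (j p) N =
    V p 0 (qq (a1 (a1 (a2 N - 1))) (a2 (a1 (a2 N - 1))) (sw (a2 (a2 N - 1)))) := by
  refine exists_ix_par (f := fun p N =>
    V p 0 (qq (a1 (a1 (a2 N - 1))) (a2 (a1 (a2 N - 1))) (sw (a2 (a2 N - 1))))) ?_
  have hq : Computable (fun x : ℕ × ℕ => a2 x.2 - 1) := predc (k2.comp Computable.snd)
  have hk : Computable (fun x : ℕ × ℕ => a2 (a2 x.2 - 1)) := k2.comp hq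
  have hsw : Computable (fun x : ℕ × ℕ => sw (a2 (a2 x.2 - 1))) :=
    Computable.cond (eqc hk (Computable.const 1)) (Computable.const 2)
      (Computable.cond (eqc hk (Computable.const 2)) (Computable.const 1) hk)
  exact V_partrec Computable.fst (Computable.const 0)
    (Computable.succ.comp (kpair (kpair (k1.comp (k1.comp hq)) (k2.comp (k1.comp hq))) hsw))

/-- index of the swapped values -/
noncomputable def kC : ℕ → ℕ := Classical.choose kC_exists

theorem kC_computable : Computable kC := (Classical.choose_spec kC_exists).1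

theorem phi_kC (κ x r k : ℕ) : V (kC κ) 0 (qq x r k) = V κ 0 (qq x r (sw k)) := by
  have := (Classical.choose_spec kC_exists).2 κ (Nat.pair 0 (qq x r k))
  rw [a2_pair] at this
  rw [V, kC, this]
  simp [qq, a1_pair, a2_pair]

theorem dat_C {R : ℕ → ℕ → Prop} {X : Set ℕ} {κ : ℕ} {v : ℕ → ℕ → ℕ → ℕ} (D : Dat R X κ 0 v) :
    Dat R Xᶜ (kC κ) 0 (fun n r k => v n r (sw k)) := by
  refine ⟨D.equ, ?_, ?_, ?_, ?_⟩
  · intro n r k
    rw [phi_kC]
    exact D.val _ _ _
  · intro n r hn
    exact D.fal _ _ hn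
  · intro n r hn
    exact D.tru _ _ (by simpa using hn)
  · intro n r k n' r' k' hk hk' h
    have h1 : sw k = 1 ∨ sw k = 2 := by rcases hk with rfl | rfl <;> simp [sw]
    have h2 : sw k' = 1 ∨ sw k' = 2 := by rcases hk' with rfl | rfl <;> simp [sw]
    obtain ⟨h3, h4, h5⟩ := D.sep _ _ _ _ _ _ h1 h2 h
    refine ⟨h3, h4, ?_⟩
    rcases hk with rfl | rfl <;> rcases hk' with rfl | rfl <;> simp [sw] at h5 ⊢

/-- first search -/
def g1 (p t : ℕ) : Option ℕ :=
  (Code.evaln (a2 t) (Denumerable.ofNat Code (a2 p)) (a1 t)).map (fun y => Nat.pair (a1 p) y)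

theorem evalc {α : Type} [Primcodable α] {f g h : α → ℕ} (hf : Computable f)
    (hg : Computable g) (hh : Computable h) :
    Computable (fun x => Code.evaln (f x) (Denumerable.ofNat Code (g x)) (h x)) :=
  Code.primrec_evaln.to_comp.comp (Computable.pair (Computable.pair hf
    ((Computable.ofNat Code).comp hg)) hh)

theorem g1_computable : Computable₂ g1 := by
  refine Computable.option_map (f := fun x : ℕ × ℕ =>
    Code.evaln (a2 x.2) (Denumerable.ofNat Code (a2 x.1)) (a1 x.2))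
    (g := fun (x : ℕ × ℕ) y => Nat.pair (a1 x.1) y)
    (evalc (k2.comp Computable.snd) (k2.comp Computable.fst) (k1.comp Computable.snd)) ?_
  exact (kpair ((k1.comp Computable.fst).comp Computable.fst) Computable.snd).to₂

/-- second search -/
def g2 (q t : ℕ) : Option ℕ :=
  bif a1 t == 0 then
    (Code.evaln (a2 (a2 t)) (Denumerable.ofNat Code (a1 q)) (a1 (a2 t))).map
      (fun x => Nat.pair x (a2 q))
  else
    (Code.evaln (a2 (a2 t)) (Denumerable.ofNat Code (a2 q)) (a1 (a2 t))).map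
      (fun x => Nat.pair x (a1 q))

theorem g2_computable : Computable₂ g2 := by
  refine Computable.cond (eqc (k1.comp Computable.snd) (Computable.const 0)) ?_ ?_
  · refine Computable.option_map (f := fun x : ℕ × ℕ =>
      Code.evaln (a2 (a2 x.2)) (Denumerable.ofNat Code (a1 x.1)) (a1 (a2 x.2)))
      (g := fun (x : ℕ × ℕ) y => Nat.pair y (a2 x.1))
      (evalc (k2.comp (k2.comp Computable.snd)) (k1.comp Computable.fst)
        (k1.comp (k2.comp Computable.snd))) ?_
    exact (kpair Computable.snd ((k2.comp Computable.fst).comp Computable.fst)).to₂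
  · refine Computable.option_map (f := fun x : ℕ × ℕ =>
      Code.evaln (a2 (a2 x.2)) (Denumerable.ofNat Code (a2 x.1)) (a1 (a2 x.2)))
      (g := fun (x : ℕ × ℕ) y => Nat.pair y (a1 x.1))
      (evalc (k2.comp (k2.comp Computable.snd)) (k2.comp Computable.fst)
        (k1.comp (k2.comp Computable.snd))) ?_
    exact (kpair Computable.snd ((k1.comp Computable.fst).comp Computable.fst)).to₂

/-- the index of the first search -/
noncomputable def iA : ℕ := Classical.choose (ce_search g1_computable true)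
/-- the index of the second search -/
noncomputable def iB2 : ℕ := Classical.choose (ce_search g2_computable false)

theorem mem_phi_iff {e n x : ℕ} : x ∈ phi e n ↔
    ∃ s, Code.evaln s (Denumerable.ofNat Code e) n = some x := by
  constructor
  · intro h
    obtain ⟨s, hs⟩ := Code.evaln_complete.1 (show x ∈ (Denumerable.ofNat Code e).eval n from h)
    exact ⟨s, hs⟩
  · rintro ⟨s, hs⟩
    exact Code.evaln_sound hs

theorem mem_Y1 (X : Set ℕ) (x e : ℕ) : Nat.pair x e ∈ CE iA X ↔
    ∃ m y, y ∈ phi e m ∧ Nat.pair x y ∈ X := by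
  rw [show CE iA X = _ from Classical.choose_spec (ce_search g1_computable true) X]
  constructor
  · rintro ⟨t, z, hz, hX⟩
    simp only [g1, a1_pair, a2_pair, Option.map_eq_some_iff] at hz
    obtain ⟨y, hy, rfl⟩ := hz
    exact ⟨a1 t, y, mem_phi_iff.2 ⟨_, hy⟩, hX.2 rfl⟩
  · rintro ⟨m, y, hy, hX⟩
    obtain ⟨s, hs⟩ := mem_phi_iff.1 hy
    refine ⟨Nat.pair m s, Nat.pair x y, ?_, ⟨fun _ => rfl, fun _ => hX⟩⟩
    simp only [g1, a1_pair, a2_pair, hs, Option.map_some]

theorem mem_Y2 (X : Set ℕ) (e e' : ℕ) : Nat.pair e e' ∈ CE iB2 X ↔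
    (∃ n x, x ∈ phi e n ∧ Nat.pair x e' ∉ X) ∨ (∃ n x, x ∈ phi e' n ∧ Nat.pair x e ∉ X) := by
  rw [show CE iB2 X = _ from Classical.choose_spec (ce_search g2_computable false) X]
  constructor
  · rintro ⟨t, z, hz, hX⟩
    have hX' : z ∉ X := fun h => by simpa using hX.1 h
    simp only [g2, a1_pair, a2_pair] at hz
    cases hb : (a1 t == 0)
    · rw [hb, cond_false, Option.map_eq_some_iff] at hz
      obtain ⟨x, hx, rfl⟩ := hz
      exact Or.inr ⟨_, x, mem_phi_iff.2 ⟨_, hx⟩, hX'⟩
    · rw [hb, cond_true, Option.map_eq_some_iff] at hz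
      obtain ⟨x, hx, rfl⟩ := hz
      exact Or.inl ⟨_, x, mem_phi_iff.2 ⟨_, hx⟩, hX'⟩
  · rintro (⟨n, x, hx, hX⟩ | ⟨n, x, hx, hX⟩)
    · obtain ⟨s, hs⟩ := mem_phi_iff.1 hx
      refine ⟨Nat.pair 0 (Nat.pair n s), Nat.pair x e', ?_, ⟨fun h => absurd h hX, fun h => by simp at h⟩⟩
      simp only [g2, a1_pair, a2_pair, hs, Option.map_some, BEq.rfl, cond_true]
    · obtain ⟨s, hs⟩ := mem_phi_iff.1 hx
      refine ⟨Nat.pair 1 (Nat.pair n s), Nat.pair x e, ?_, ⟨fun h => absurd h hX, fun h => by simp at h⟩⟩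
      simp only [g2, a1_pair, a2_pair, hs, Option.map_some]
      rfl

theorem EqS_jump {E : ℕ → ℕ → Prop} (hE : Equivalence E) :
    EqS (FSJump E) = (CE iB2 (CE iA (EqS E)))ᶜ := by
  have hp : ∀ x y, Nat.pair x y ∈ EqS E ↔ E x y := by
    intro x y
    simp [EqS]
  ext z
  obtain ⟨e, e', rfl⟩ : ∃ e e', z = Nat.pair e e' := ⟨_, _, (Nat.pair_unpair z).symm⟩
  rw [Set.mem_compl_iff, mem_Y2]
  have h0 : Nat.pair e e' ∈ EqS (FSJump E) ↔ FSJump E e e' := by simp [EqS]
  rw [h0, fsjump_iff hE]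
  simp only [mem_Y1, hp]
  push Not
  constructor
  · rintro ⟨h1, h2⟩
    constructor
    · intro n x hx
      obtain ⟨m, y, hy, hxy⟩ := h1 n x hx
      exact ⟨m, y, hy, hxy⟩
    · intro n x hx
      obtain ⟨m, y, hy, hxy⟩ := h2 n x hx
      exact ⟨m, y, hy, hE.symm hxy⟩
  · rintro ⟨h1, h2⟩
    constructor
    · intro n x hx
      obtain ⟨m, y, hy, hxy⟩ := h1 n x hx
      exact ⟨m, y, hy, hxy⟩
    · intro n x hx
      obtain ⟨m, y, hy, hxy⟩ := h2 n x hx
      exact ⟨m, y, hy, hE.symm hxy⟩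

/-- the index after one jump -/
noncomputable def kS (κ : ℕ) : ℕ := kC (kO (kO κ iA) iB2)

theorem kS_computable : Computable kS :=
  kC_computable.comp (kO_computable (kO_computable Computable.id (Computable.const iA))
    (Computable.const iB2))

theorem dat_S {F E : ℕ → ℕ → Prop} (hE : Equivalence E) {κ : ℕ} {v : ℕ → ℕ → ℕ → ℕ}
    (D : Dat F (EqS E) κ 0 v) :
    ∃ v', Dat (FSJump (FSJump (FSJump (FSJump F)))) (EqS (FSJump E)) (kS κ) 0 v' := by
  rw [EqS_jump hE]
  exact ⟨_, dat_C (dat_O (dat_O D iA) iB2)⟩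

theorem dat_it {F E : ℕ → ℕ → Prop} (hE : Equivalence E) {κ : ℕ} {v : ℕ → ℕ → ℕ → ℕ}
    (D : Dat F (EqS E) κ 0 v) (n : ℕ) :
    ∃ v', Dat (it F (4 * n)) (EqS (it E n)) (Nat.rec κ (fun _ x => kS x) n) 0 v' := by
  induction n with
  | zero => exact ⟨v, D⟩
  | succ n ih =>
    obtain ⟨v', D'⟩ := ih
    exact dat_S (it_equiv hE n) D'

end Pool.Agent.R575.ND
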