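import Mathlib
import Pool.Agent.R575.ND.Proper

/-!
# Two notations of `ω ^ 2` with different iterates
-/

namespace Pool.Agent.R575.ND

open Nat.Partrec (Code)
open Pool.Agent.R575.HY
open Ordinal

/-- the query in the sum: the pair `q = ⟨z, w⟩` -/
def sameCol (q : ℕ) : Bool := a1 (a1 q) == a1 (a2 q)

/-- kind used for the pairs in different columns -/
def ofal (k : ℕ) : ℕ := bif k == 0 then 2 else k

/-- the values at the sum -/
noncomputable def vSum (v : ℕ → ℕ → ℕ → ℕ → ℕ) (q r k : ℕ) : ℕ :=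
  bif sameCol q then Nat.pair (4 * a1 (a1 q)) (v (a1 (a1 q)) (Nat.pair (a2 (a1 q)) (a2 (a2 q))) (2 * r) k)
  else Nat.pair 0 (v 0 q (2 * r + 1) (ofal k))

theorem ksum_exists {κs : ℕ → ℕ} (hκ : Computable κs) : ∃ κ, ∀ v : ℕ → ℕ → ℕ → ℕ → ℕ,
    (∀ n x r k, v n x r k ∈ V (κs n) 0 (qq x r k)) →
    ∀ q r k, vSum v q r k ∈ V κ 0 (qq q r k) := by
  let f : ℕ → Part ℕ := fun N =>
    bif sameCol (a1 (a1 (a2 N - 1))) then
      (V (κs (a1 (a1 (a1 (a1 (a2 N - 1)))))) 0
        (qq (Nat.pair (a2 (a1 (a1 (a1 (a2 N - 1))))) (a2 (a2 (a1 (a1 (a2 N - 1))))))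
          (2 * a2 (a1 (a2 N - 1))) (a2 (a2 N - 1)))).map
        (fun y => Nat.pair (4 * a1 (a1 (a1 (a1 (a2 N - 1))))) y)
    else
      (V (κs 0) 0 (qq (a1 (a1 (a2 N - 1))) (2 * a2 (a1 (a2 N - 1)) + 1) (ofal (a2 (a2 N - 1))))).map
        (fun y => Nat.pair 0 y)
  have hq : Computable (fun N : ℕ => a2 N - 1) := predc k2
  have hx : Computable (fun N : ℕ => a1 (a1 (a2 N - 1))) := k1.comp (k1.comp hq)
  have hr : Computable (fun N : ℕ => 2 * a2 (a1 (a2 N - 1))) :=
    mulc (Computable.const 2) (k2.comp (k1.comp hq))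
  have hk : Computable (fun N : ℕ => a2 (a2 N - 1)) := k2.comp hq
  have hf : Partrec f := by
    refine Partrec.cond (eqc (k1.comp (k1.comp hx)) (k1.comp (k2.comp hx))) ?_ ?_
    · refine Partrec.map (V_partrec (hκ.comp (k1.comp (k1.comp hx))) (Computable.const 0)
        (Computable.succ.comp (kpair (kpair (kpair (k2.comp (k1.comp hx)) (k2.comp (k2.comp hx)))
          hr) hk))) ?_
      exact (kpair ((mulc (Computable.const 4) (k1.comp (k1.comp hx))).comp Computable.fst)
        Computable.snd).to₂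
    · refine Partrec.map (V_partrec (Computable.const (κs 0)) (Computable.const 0)
        (Computable.succ.comp (kpair (kpair hx (Computable.succ.comp hr))
          (Computable.cond (eqc hk (Computable.const 0)) (Computable.const 2) hk)))) ?_
      exact (kpair (Computable.const 0) Computable.snd).to₂
  obtain ⟨c, hc⟩ := exists_code_par hf
  refine ⟨Encodable.encode c, fun v hv q r k => ?_⟩
  rw [V, phi, Denumerable.ofNat_encode, hc]
  have h1 : qq q r k - 1 = Nat.pair (Nat.pair q r) k := rfl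
  simp only [f, a2_pair, h1, a1_pair, vSum]
  cases sameCol q
  · simp only [cond_false]
    exact (Part.mem_map_iff _).2 ⟨_, hv _ _ _ _, rfl⟩
  · simp only [cond_true]
    exact (Part.mem_map_iff _).2 ⟨_, hv _ _ _ _, rfl⟩

theorem dat_sum {F E : ℕ → ℕ → Prop} (hF : Equivalence F) {κs : ℕ → ℕ} (hκ : Computable κs)
    {v : ℕ → ℕ → ℕ → ℕ → ℕ} (D : ∀ n, Dat (it F (4 * n)) (EqS (it E n)) (κs n) 0 (v n)) :
    ∃ κ v', Dat (SumR (it F)) (EqS (SumR (it E))) κ 0 v' := by
  obtain ⟨κ, hκ'⟩ := ksum_exists hκ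
  refine ⟨κ, vSum v, ?_, hκ' v (fun n x r k => (D n).val x r k), ?_, ?_, ?_⟩
  · refine ⟨fun z => ⟨rfl, (it_equiv hF _).refl _⟩, ?_, ?_⟩
    · rintro z w ⟨h1, h2⟩
      refine ⟨h1.symm, ?_⟩
      rw [← h1]
      exact (it_equiv hF _).symm h2
    · rintro z w u ⟨h1, h2⟩ ⟨h3, h4⟩
      refine ⟨h1.trans h3, (it_equiv hF _).trans h2 ?_⟩
      rw [h1]
      exact h4
  · intro q r hq
    obtain ⟨h1, h2⟩ := hq
    have hs : sameCol q = true := by
      unfold sameCol
      exact beq_iff_eq.2 h1
    simp only [vSum, hs, cond_true]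
    rw [SumR_pair]
    refine ⟨rfl, (D _).tru _ _ ?_⟩
    change it E _ _ _
    rw [Nat.unpair_pair]
    exact h2
  · intro q r hq
    cases hs : sameCol q
    · simp only [vSum, hs, cond_false]
      rw [SumR_pair]
      exact ⟨rfl, (D 0).equ.refl _⟩
    · simp only [vSum, hs, cond_true]
      rw [SumR_pair]
      refine ⟨rfl, (D _).fal _ _ ?_⟩
      intro h
      apply hq
      have h' : it E _ _ _ := h
      rw [Nat.unpair_pair] at h'
      exact ⟨beq_iff_eq.1 hs, h'⟩
  · intro q r k q' r' k' hk hk' h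
    have hof : ofal k = k := by rcases hk with rfl | rfl <;> rfl
    have hof' : ofal k' = k' := by rcases hk' with rfl | rfl <;> rfl
    cases hs : sameCol q <;> cases hs' : sameCol q' <;>
      simp only [vSum, hs, hs', cond_true, cond_false, hof, hof'] at h <;> rw [SumR_pair] at h
    · obtain ⟨_, h⟩ := h
      obtain ⟨h1, h2, h3⟩ := (D 0).sep _ _ _ _ _ _ hk hk' h
      exact ⟨h1, by omega, h3⟩
    · obtain ⟨h0, h⟩ := h
      have h00 : a1 (a1 q') = 0 := by omega
      rw [h00] at h
      obtain ⟨_, h2, _⟩ := (D 0).sep _ _ _ _ _ _ hk hk' h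
      omega
    · obtain ⟨h0, h⟩ := h
      have h00 : a1 (a1 q) = 0 := by omega
      rw [h00] at h
      obtain ⟨_, h2, _⟩ := (D 0).sep _ _ _ _ _ _ hk hk' h
      omega
    · obtain ⟨h0, h⟩ := h
      have h00 : a1 (a1 q) = a1 (a1 q') := by omega
      rw [← h00] at h
      obtain ⟨h1, h2, h3⟩ := (D _).sep _ _ _ _ _ _ hk hk' h
      refine ⟨?_, by omega, h3⟩
      obtain ⟨h4, h5⟩ := Nat.pair_eq_pair.1 h1
      have h6 : a1 (a1 q) = a1 (a2 q) := beq_iff_eq.1 hs
      have h7 : a1 (a1 q') = a1 (a2 q') := beq_iff_eq.1 hs'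
      have e1 : a1 q = a1 q' := by
        rw [← Nat.pair_unpair (a1 q), ← Nat.pair_unpair (a1 q')]
        exact congrArg₂ Nat.pair h00 h4
      have e2 : a2 q = a2 q' := by
        rw [← Nat.pair_unpair (a2 q), ← Nat.pair_unpair (a2 q')]
        exact congrArg₂ Nat.pair (by change a1 (a2 q) = a1 (a2 q'); omega) h5
      rw [← Nat.pair_unpair q, ← Nat.pair_unpair q']
      exact congrArg₂ Nat.pair e1 e2

/-- the base case -/
theorem dat_base : ∃ κ v, Dat (fun n m : ℕ => n = m) (EqS (fun n m : ℕ => n = m)) κ 0 v := by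
  let v : ℕ → ℕ → ℕ → ℕ := fun q r k =>
    bif (k == 1 || (k == 0 && (a1 q == a2 q))) then 2 * Nat.pair q r + 1 else 2 * Nat.pair q r
  have hv : Computable (fun N : ℕ => v (a1 (a1 (a2 N - 1))) (a2 (a1 (a2 N - 1))) (a2 (a2 N - 1))) := by
    have hq : Computable (fun N : ℕ => a2 N - 1) := predc k2
    have hx : Computable (fun N : ℕ => a1 (a1 (a2 N - 1))) := k1.comp (k1.comp hq)
    have hr : Computable (fun N : ℕ => a2 (a1 (a2 N - 1))) := k2.comp (k1.comp hq)
    have hk : Computable (fun N : ℕ => a2 (a2 N - 1)) := k2.comp hq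
    have hm := mulc (Computable.const 2) (kpair hx hr)
    refine Computable.cond (Primrec.or.to_comp.comp (eqc hk (Computable.const 1))
      (Primrec.and.to_comp.comp (eqc hk (Computable.const 0)) (eqc (k1.comp hx) (k2.comp hx))))
      (Computable.succ.comp hm) hm
  obtain ⟨c, hc⟩ := exists_code_tot hv
  refine ⟨Encodable.encode c, v, eq_equiv, ?_, ?_, ?_, ?_⟩
  · intro n r k
    rw [V, phi, Denumerable.ofNat_encode, hc]
    have h1 : a2 (Nat.pair 0 (qq n r k)) - 1 = Nat.pair (Nat.pair n r) k := by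
      rw [a2_pair]
      rfl
    rw [h1]
    simp only [a1_pair, a2_pair]
    exact Part.mem_some _
  · intro q r hq
    have : a1 q = a2 q := hq
    simp [v, this]
  · intro q r hq
    have : (a1 q == a2 q) = false := by
      rw [beq_eq_false_iff_ne]
      exact fun h => hq h
    simp [v, this]
  · intro n r k n' r' k' hk hk' h
    have : Nat.pair n r = Nat.pair n' r' ∧ k = k' := by
      rcases hk with rfl | rfl <;> rcases hk' with rfl | rfl <;> simp [v] at h ⊢ <;> omega
    obtain ⟨h1, h2⟩ := this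
    obtain ⟨h3, h4⟩ := Nat.pair_eq_pair.1 h1
    exact ⟨h3, h4, h2⟩

theorem dat_up (k : ℕ) :
    ∃ κ v, Dat (ID (UpN Ntn.zero k)) (EqS (ID (UpN Ntn.zero k))) κ 0 v := by
  induction k with
  | zero => exact dat_base
  | succ k ih =>
    obtain ⟨κ, v, D⟩ := ih
    have hE := FS_equiv eq_equiv (UpN Ntn.zero k)
    have hκ : Computable (fun n : ℕ => (Nat.rec κ (fun _ x => kS x) n : ℕ)) :=
      Computable.nat_rec (h := fun (_ : ℕ) (q : ℕ × ℕ) => kS q.2) Computable.id
        (Computable.const κ) (kS_computable.comp (Computable.snd.comp Computable.snd))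
    choose vs hvs using fun n => dat_it hE D n
    change ∃ κ v, Dat (ID (WN (UpN Ntn.zero k))) (EqS (ID (WN (UpN Ntn.zero k)))) κ 0 v
    rw [FS_WN]
    exact dat_sum hE hκ hvs

/-- universal search -/
def gU (e t : ℕ) : Option ℕ := Code.evaln t (Denumerable.ofNat Code e) e

theorem gU_computable : Computable₂ gU := evalc Computable.snd Computable.fst Computable.fst

/-- the jump is proper at a relation with a coding of its own equality -/
theorem proper_of_dat {F : ℕ → ℕ → Prop} {κ : ℕ} {v : ℕ → ℕ → ℕ → ℕ}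
    (D : Dat F (EqS F) κ 0 v) : ¬ CRed (FSJump F) F := by
  intro h
  have hF := D.equ
  have h2 : CRed (FSJump (FSJump F)) F := CRed.tr (cred_jump (fsjump_equiv F) hF h) h
  obtain ⟨f, hf, hf'⟩ := h2
  obtain ⟨iU, hU⟩ := ce_search gU_computable true
  have D' := dat_O D iU
  have hv : ∀ k, Computable (fun e => vO κ iU e 0 k) := by
    intro k
    have hP : Partrec (fun e => V (kO κ iU) 0 (qq e 0 k)) :=
      V_partrec (Computable.const _) (Computable.const 0)
        (Computable.succ.comp (kpair (kpair Computable.id (Computable.const 0)) (Computable.const k)))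
    exact hP.of_eq_tot (fun e => D'.val e 0 k)
  have hh : Computable (fun e => Nat.pair (f (vO κ iU e 0 0)) (f (vO κ iU e 0 2))) :=
    kpair (hf.comp (hv 0)) (hf.comp (hv 2))
  obtain ⟨c, hc⟩ := exists_code_tot hh
  let i := Encodable.encode c
  have hphi : ∀ e, phi i e = Part.some (Nat.pair (f (vO κ iU e 0 0)) (f (vO κ iU e 0 2))) := by
    intro e
    change phi (Encodable.encode c) e = _
    rw [phi, Denumerable.ofNat_encode, hc]
  have key : i ∈ CE iU (EqS F) ↔ FSJump (FSJump F) (vO κ iU i 0 0) (vO κ iU i 0 2) := by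
    rw [hf', hU]
    constructor
    · rintro ⟨t, z, hz, hX⟩
      have hz' : z ∈ phi i i := mem_phi_iff.2 ⟨t, hz⟩
      rw [hphi, Part.mem_some_iff] at hz'
      have := hX.2 rfl
      rw [hz'] at this
      change F _ _ at this
      rwa [Nat.unpair_pair] at this
    · intro hF'
      obtain ⟨t, ht⟩ := mem_phi_iff.1 (show _ ∈ phi i i by rw [hphi]; exact Part.mem_some _)
      refine ⟨t, _, ht, ⟨fun _ => rfl, fun _ => ?_⟩⟩
      change F _ _
      rwa [Nat.unpair_pair]
  by_cases hi : i ∈ CE iU (EqS F)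
  · have h1 := D'.tru i 0 hi
    have h2 := key.1 hi
    have h3 := D'.equ.trans (D'.equ.symm h1) h2
    obtain ⟨_, _, h4⟩ := D'.sep _ _ _ _ _ _ (Or.inl rfl) (Or.inr rfl) h3
    omega
  · exact hi (key.2 (D'.fal i 0 hi))

/-- the ordinal does not depend on the derivation -/
theorem ord_indep_aux {a : ℕ} (p : Ntn a) : ∀ {b : ℕ} (q : Ntn b), a = b → ord p = ord q := by
  induction p with
  | zero =>
    intro b q h
    cases q with
    | zero => rfl
    | @succ b q =>
      have := Nat.one_lt_two_pow (ntn_pos q).ne'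
      omega
    | lim e f hf mono q =>
      have : 0 < 5 ^ e := by positivity
      omega
  | @succ a p ih =>
    intro b q h
    cases q with
    | zero =>
      have := Nat.one_lt_two_pow (ntn_pos p).ne'
      omega
    | @succ b q =>
      have hab : a = b := Nat.pow_right_injective (le_refl 2) h
      change ord p + 1 = ord q + 1
      rw [ih q hab]
    | lim e f hf mono q => exact absurd h (two_pow_ne _ _)
  | lim e f hf mono p ih =>
    intro b q h
    cases q with
    | zero =>
      have : 0 < 5 ^ e := by positivity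
      omega
    | @succ b q => exact absurd h.symm (two_pow_ne _ _)
    | lim e' f' hf' mono' q =>
      have h2 : 5 ^ e = 5 ^ e' := by omega
      have := Nat.pow_right_injective (by norm_num : 2 ≤ 5) h2
      subst this
      have hff : ∀ n, f n = f' n := fun n => Part.mem_unique (hf n) (hf' n)
      change (⨆ n, ord (p n)) = ⨆ n, ord (q n)
      exact congrArg iSup (funext (fun n => ih n (q n) (hff n)))

theorem ord_indep (a : ℕ) (p q : Ntn a) : ord p = ord q := ord_indep_aux p q rfl

theorem not_reducible : ¬ CRed (ID aN) (ID bN) := by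
  intro h
  obtain ⟨m, k, h1, h2⟩ := key_step h
  obtain ⟨κ, v, D⟩ := dat_up k
  refine proper_of_dat D ?_
  exact CRed.tr (cred_jump (FS_equiv eq_equiv _) (FS_equiv eq_equiv _) h2) h1

end Pool.Agent.R575.ND
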